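import Pool.Agent.H33.CPE.ABSC
import Pool.Agent.H33.CPE.BLK
import Pool.Agent.H33.CPE.CELL
import Pool.Agent.H33.CPE.PHS
import Pool.Agent.H22.CPE.CPC
import Pool.Agent.H22.CPE.FINC
import Pool.Agent.H22.CPE.SEL
import Pool.Agent.H68.CPE.CPD
import Pool.Agent.H81.CPE.ERR
import Pool.Agent.H38.CPE.FINR
import Pool.Agent.H94.CPE.KER
import Pool.Agent.H2.CPE.MASX
import Pool.Agent.H2.CPE.MAXI
import Pool.Agent.H77.CPE.MOMX
import Pool.Agent.H77.CPE.PIE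
import Pool.Agent.H51.CPE.NUM
import Pool.Agent.H45.CPE.PARC
import Pool.Agent.H42.CPE.PH0
import Pool.Agent.H42.CPE.TRB
import Pool.Agent.H82.CPE.REQ
import Pool.Agent.H40.CPE.RMC
import Pool.Agent.H11.CPE.RMD
import Pool.Agent.H40.CPE.TCN
import Pool.Agent.H98.CPE.WEI
import Pool.Agent.H34.AV.MOC
import Pool.Agent.H33.AV.JUN
import Pool.Agent.H64.AV.BIP
import Pool.Agent.H78.AV.BIZ
import Pool.Agent.H35.AV.KAP
import Pool.Agent.H13.AV.MINK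
import Pool.Agent.H37.AV.ONE
import Pool.Agent.H96.KX.Asm2

/-! # MP_c62aed_lc, cutting planes and real monotone circuits: assembly (helper37) -/

namespace Pool.Agent.H37.CP

open Pool.Agent

theorem err' : S_ERR := H81.CPE.pf_ERR (H2.CPE.pf_MAXI (H33.CPE.pf_CELL H33.CPE.pf_BLK) H98.CPE.pf_WEI)

theorem absc' : S_ABSC :=
  H33.CPE.pf_ABSC (H33.CPE.pf_PHS err' H77.CPE.pf_PIE) (H42.CPE.pf_PH0 err' H77.CPE.pf_PIE)

theorem trb' : S_TRB := H42.CPE.pf_TRB err' H22.CPE.pf_SEL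

theorem kapx' : H91.AV.S_KAP := H35.AV.pf_KAP (H33.AV.pf_JUN H37.AV.pf_ONE H13.AV.pf_MINK)

theorem ker' : S_KER :=
  H94.CPE.pf_KER (H77.CPE.pf_MOMX H34.AV.pf_MOC) H2.CPE.pf_MASX (H64.AV.pf_BIP kapx')
    (H78.AV.pf_BIZ kapx') H39.KX.pf_PDA H86.KX.pf_PDP H2.LP.loc

theorem x3' : H96.KX.S_X3 := H11.KX.pf_X3 H77.KX.pf_EXP3 H49.KX3.pf_RHS3

theorem cpc' (hW : S_WID) : S_CPC :=
  H22.CPE.pf_CPC (H68.CPE.pf_CPD absc' trb') ker' hW H40.CPE.pf_TCN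

theorem cp (hW : S_WID) : StatementCP :=
  H22.CPE.pf_FINC x3' (cpc' hW) H45.CPE.pf_PARC H51.CPE.pf_NUM

theorem rm : StatementRM :=
  H38.CPE.pf_FINR x3'
    (H40.CPE.pf_RMC (H11.CPE.pf_RMD absc' H82.CPE.pf_REQ) ker' H39.KX.pf_FRM3)
    H45.CPE.pf_PARC H51.CPE.pf_NUM H82.CPE.pf_REQ

end Pool.Agent.H37.CP
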