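import Pool.Agent.H37.CP.Asm
import Pool.Agent.H4.CPE.WID

/-! # MP_c62aed_lc, cutting planes and real monotone circuits: the theorem (helper37) -/

namespace Pool.Agent.H37.CP

theorem cutting_planes : StatementCP := cp H4.CPE.pf_WID

theorem main : Statement := ⟨cutting_planes, rm⟩

end Pool.Agent.H37.CP
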