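import Pool.Agent.H1.LP.Stmt

/-!
# ETH for cutting planes and for real monotone circuits: the statement (helper37, MP_c62aed_lc)
-/

namespace Pool.Agent.H37.CP

open Pool.Agent.H1.LP (Clause viol)

/-! ## cutting planes -/

/-- A linear inequality `∑ w i * x i ≥ b` with real coefficients. -/
abbrev Line (n : ℕ) := (Fin n → ℝ) × ℝ

/-- The 0/1 point `x` satisfies the inequality. -/
def Holds {n : ℕ} (l : Line n) (x : Fin n → Bool) : Prop :=
  l.2 ≤ ∑ i, l.1 i * (if x i then 1 else 0)

/-- `phi` has a refutation in (semantic) cutting planes with `s` lines and depth at most `d`: every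
line either follows, over the 0/1 points, from one clause of `phi`, or it follows, over the
0/1 points, from two lines of smaller depth, and some line has no solution. -/
def Refutable {n m : ℕ} (phi : Fin m → Clause n) (s d : ℕ) : Prop :=
  ∃ (line : Fin s → Line n) (dp : Fin s → ℕ), (∀ j, dp j ≤ d) ∧
    (∀ j, (∃ i, ∀ x, (phi i).Sat x → Holds (line j) x) ∨
      ∃ j1 j2, dp j1 < dp j ∧ dp j2 < dp j ∧
        ∀ x, Holds (line j1) x → Holds (line j2) x → Holds (line j) x) ∧
    ∃ j, ∀ x, ¬ Holds (line j) x

/-- A tree of linear inequalities. -/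
inductive Tree (n : ℕ) where
  | ax (l : Line n) : Tree n
  | inf (l : Line n) (p q : Tree n) : Tree n

/-- the conclusion of the tree -/
def Tree.top {n : ℕ} : Tree n → Line n
  | .ax l => l
  | .inf l _ _ => l

/-- the number of leaves of the tree -/
def Tree.size {n : ℕ} : Tree n → ℕ
  | .ax _ => 1
  | .inf _ p q => p.size + q.size

/-- The tree is a tree-like derivation from the clauses of `phi`. -/
def Tree.Valid {n m : ℕ} (phi : Fin m → Clause n) : Tree n → Prop
  | .ax l => ∃ i, ∀ x, (phi i).Sat x → Holds l x
  | .inf l p q => p.Valid phi ∧ q.Valid phi ∧ ∀ x, Holds p.top x → Holds q.top x → Holds l x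

/-- Cutting planes: there are `K` and `c > 0` such that for all large `n` there is an unsatisfiable
CNF with `n` variables and at most `K n` clauses, all of width exactly `3`, such that every cutting
planes refutation with `s` lines and depth at most `d` satisfies `d ≥ c n` and
`d * log₂ s ≥ c n ^ 2`, and every tree-like refutation has at least `2 ^ (c n)` leaves. -/
def StatementCP : Prop :=
  ∃ (K : ℕ) (c : ℝ), 0 < c ∧ ∃ n₀ : ℕ, ∀ n : ℕ, n₀ ≤ n →
    ∃ (m : ℕ) (phi : Fin m → Clause n), m ≤ K * n ∧
      (∀ i, (phi i).card = 3 ∧ ((phi i).image Prod.fst).card = 3) ∧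
      (∀ x, ∃ i, ¬ (phi i).Sat x) ∧
      (∀ s d : ℕ, Refutable phi s d →
        c * n ≤ d ∧ c * (n : ℝ) ^ 2 ≤ d * Real.logb 2 s) ∧
      ∀ p : Tree n, p.Valid phi → (∀ x, ¬ Holds p.top x) → (2 : ℝ) ^ (c * n) ≤ p.size

/-! ## real monotone circuits -/

/-- Gate number `i` of a real monotone circuit whose input is a set of clauses over `n` variables:
a constant, the input bit of a clause, or a nondecreasing real function of two gates with smaller
numbers. -/
inductive RGate (n i : ℕ) where
  | cst (r : ℝ) : RGate n i
  | inp (C : Clause n) : RGate n i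
  | op (f : ℝ → ℝ → ℝ) (hf : ∀ a a' b b', a ≤ a' → b ≤ b' → f a b ≤ f a' b') (j l : Fin i) :
      RGate n i

open Classical in
/-- The value of gate number `i` on the formula `F` (a set of clauses). -/
noncomputable def rval {n : ℕ} (g : (i : ℕ) → RGate n i) (F : Set (Clause n)) (i : ℕ) : ℝ :=
  match g i with
  | .cst r => r
  | .inp C => if C ∈ F then 1 else 0
  | .op f _ j l => f (rval g F j.1) (rval g F l.1)
termination_by i
decreasing_by
  · exact j.2
  · exact l.2

/-- The depth of gate number `i`. -/
def rdep {n : ℕ} (g : (i : ℕ) → RGate n i) (i : ℕ) : ℕ :=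
  match g i with
  | .cst _ => 0
  | .inp _ => 0
  | .op _ _ j l => max (rdep g j.1) (rdep g l.1) + 1
termination_by i
decreasing_by
  · exact j.2
  · exact l.2

/-- A real monotone circuit whose input is a set of clauses over `n` variables, with gates
`0, …, out` and output gate `out`. -/
structure RCircuit (n : ℕ) where
  /-- the number of the output gate -/
  out : ℕ
  /-- the gates -/
  gate : (i : ℕ) → RGate n i

/-- the number of gates (inputs and constants included) -/
def RCircuit.size {n : ℕ} (C : RCircuit n) : ℕ := C.out + 1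

/-- the depth of the circuit -/
def RCircuit.depth {n : ℕ} (C : RCircuit n) : ℕ := rdep C.gate C.out

/-- the circuit accepts the formula `phi`: its output is positive -/
def RAcc {n m : ℕ} (C : RCircuit n) (phi : Fin m → Clause n) : Prop :=
  0 < rval C.gate (Set.range phi) C.out

/-- The circuit does not accept any satisfiable CNF with at most `M` clauses, all of width exactly
`k`. -/
def RSound {n : ℕ} (C : RCircuit n) (k M : ℕ) : Prop :=
  ∀ (m : ℕ) (phi : Fin m → Clause n), m ≤ M →
    (∀ i, (phi i).card = k ∧ ((phi i).image Prod.fst).card = k) →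
    (∃ x, ∀ i, (phi i).Sat x) → ¬ RAcc C phi

open Classical in
/-- Real monotone circuits: for every gap `ε > 0` there are `K`, `c > 0` and `γ > 0` such that for
all large `n` there is a finite list of CNFs with `n` variables, at most `K n` clauses, all of width
exactly `3`, every assignment violating at least `(1 - ε) m / 8` of the `m` clauses, with the
property: every real monotone circuit which accepts no satisfiable 3-CNF with at most `K n` clauses
and accepts more than a fraction `2 ^ (- γ n)` of the list has, with `s` gates and depth `d`,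
`d ≥ c n` and `d * log₂ s ≥ c n ^ 2`. -/
def StatementRM : Prop :=
  ∀ ε : ℝ, 0 < ε → ∃ (K : ℕ) (c γ : ℝ), 0 < c ∧ 0 < γ ∧ ∃ n₀ : ℕ, ∀ n : ℕ, n₀ ≤ n →
    ∃ (Y : ℕ) (m : Fin Y → ℕ) (phi : (a : Fin Y) → Fin (m a) → Clause n), 0 < Y ∧
      (∀ a, 1 ≤ m a ∧ m a ≤ K * n ∧
        (∀ i, (phi a i).card = 3 ∧ ((phi a i).image Prod.fst).card = 3) ∧
        ∀ x, (1 - ε) * ((m a : ℝ) / 2 ^ 3) ≤ (viol (phi a) x : ℝ)) ∧
      ∀ C : RCircuit n, RSound C 3 (K * n) →
        (2 : ℝ) ^ (-(γ * n)) * Y <
          ((Finset.univ.filter (fun a => RAcc C (phi a))).card : ℝ) →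
        c * n ≤ C.depth ∧ c * (n : ℝ) ^ 2 ≤ C.depth * Real.logb 2 C.size

/-- The theorem. -/
def Statement : Prop := StatementCP ∧ StatementRM

end Pool.Agent.H37.CP
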