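import Pool.Agent.H91.AV.Targets
import Pool.Agent.H37.CP.Stmt

/-!
# ETH for cutting planes and for real monotone circuits: definitions and targets (helper37)

`Y` = the side over which the fourth moments are taken (tables, assignments), `X` = the side which
is cut into cells (values, formulas).  `K : Y → X → ℝ` is the kernel.
-/

namespace Pool.Agent.H37.CP

open Finset
open Pool.Agent.H1.LP (Clause viol Loc Sys supp ip)
open Pool.Agent.H96.KX (psz fac jun PDz)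
open Pool.Agent.H91.AV (MomInd rhx bix kap)

/-! ## comparisons -/

/-- a comparison `w x < u y` (if `pos`) or `¬ (w x < u y)` -/
structure Cmp (Y X : Type) where
  /-- sign -/
  pos : Bool
  /-- function of `x` -/
  w : X → ℝ
  /-- function of `y` -/
  u : Y → ℝ

/-- the comparison holds -/
def Cmp.H {Y X : Type} (c : Cmp Y X) (y : Y) (x : X) : Prop :=
  if c.pos = true then c.w x < c.u y else ¬ c.w x < c.u y

open Classical in
/-- the `x` in `B` such that all comparisons of the list hold -/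
noncomputable def row {Y X : Type} (L : List (Cmp Y X)) (B : Finset X) (y : Y) : Finset X :=
  B.filter (fun x => ∀ c ∈ L, c.H y x)

/-- BLK: the binary blocks of an initial segment -/
def S_BLK : Prop :=
  ∀ (L s : ℕ) (f : ℕ → ℝ), s < 2 ^ L →
    ∑ i ∈ range s, f i = ∑ l ∈ range L,
      if s / 2 ^ l % 2 = 1 then
        ∑ i ∈ Ico ((s / 2 ^ l - 1) * 2 ^ l) (s / 2 ^ l * 2 ^ l), f i else 0

/-- CELL: `S_BLK → S_CELL`, the cells of one comparison -/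
def S_CELL : Prop :=
  ∀ (Y X : Type) [Fintype X] (B : Finset X) (c : Cmp Y X),
    ∃ (L M : ℕ) (Bl : ℕ → ℕ → Finset X) (j : Y → ℕ → ℕ), (∀ l i, Bl l i ⊆ B) ∧
      (∀ y l, l < L → j y l < M) ∧
      (∀ (y : Y) (f : X → ℝ), ∑ x ∈ row [c] B y, f x =
        ∑ l ∈ range L, ∑ x ∈ Bl l (j y l), f x) ∧
      ∀ l < L, (∑ i ∈ range M, ((Bl l i).card : ℝ) ^ 2) * 2 ^ (L - 1 - l) ≤ (B.card : ℝ) ^ 2

/-- WEI: the weights of the levels -/
def S_WEI : Prop :=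
  (∀ (L : ℕ) (a : ℕ → ℝ), (∀ l, 0 ≤ a l) → (∑ l ∈ range L, a l) ^ 4 ≤
    512 * ∑ l ∈ range L, (8 / 7 : ℝ) ^ (3 * (L - 1 - l)) * a l ^ 4) ∧
  ∀ L : ℕ, ∑ l ∈ range L, (8 / 7 : ℝ) ^ (3 * (L - 1 - l)) / 2 ^ (L - 1 - l) ≤ 4

/-- MAXI: `S_CELL → S_WEI → S_MAXI`, the maximal inequality -/
def S_MAXI : Prop :=
  ∀ (Y X : Type) [Fintype Y] [Fintype X] (φ : Y → X → ℝ) (κ : ℝ) (A : Set Y) (B0 : Finset X),
    0 ≤ κ →
    (∀ B ⊆ B0, ∃ T : Y → ℝ, (∀ y, 0 ≤ T y) ∧ (∀ y ∈ A, -(T y) ≤ ∑ x ∈ B, φ y x) ∧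
      ∑ y, T y ^ 4 ≤ κ * (B.card : ℝ) ^ 2) →
    ∀ (L : List (Cmp Y X)) (B : Finset X), B ⊆ B0 →
      ∃ E : Y → ℝ, (∀ y, 0 ≤ E y) ∧ (∀ y ∈ A, -(E y) ≤ ∑ x ∈ row L B y, φ y x) ∧
        ∑ y, E y ^ 4 ≤ 2048 ^ L.length * κ * (B.card : ℝ) ^ 2

/-! ## kernels and triangle dags -/

/-- A kernel with small errors: almost nonnegative on all sets `B`, almost nonpositive on the
leaves `lY i × lX i`, with fourth moments. -/
structure Ker {Y X ι : Type} [Fintype Y] [Fintype X] (K : Y → X → ℝ) (lY : ι → Set Y)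
    (lX : ι → Finset X) (δ : ℝ) : Prop where
  pos : ∀ B : Finset X, ∃ T : Y → ℝ, (∀ y, 0 ≤ T y) ∧ (∀ y, -(T y) ≤ ∑ x ∈ B, K y x) ∧
    ∑ y, T y ^ 4 ≤ δ ^ 4 * (Fintype.card Y * (Fintype.card X : ℝ) ^ 2) * (B.card : ℝ) ^ 2
  neg : ∀ i, ∀ B ⊆ lX i, ∃ T : Y → ℝ, (∀ y, 0 ≤ T y) ∧
    (∀ y ∈ lY i, ∑ x ∈ B, K y x ≤ T y) ∧
    ∑ y, T y ^ 4 ≤ δ ^ 4 * (Fintype.card Y * (Fintype.card X : ℝ) ^ 2) * (B.card : ℝ) ^ 2

/-- the unit of the errors -/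
noncomputable def gg (Y X : Type) [Fintype Y] [Fintype X] (δ : ℝ) (q : ℕ) : ℝ :=
  δ * 8 ^ q * ((Fintype.card Y : ℝ) * Fintype.card X)

/-- ERR: `S_MAXI → S_ERR` -/
def S_ERR : Prop :=
  ∀ (Y X ι : Type) [Fintype Y] [Fintype X] (K : Y → X → ℝ) (lY : ι → Set Y)
    (lX : ι → Finset X) (δ : ℝ), 0 ≤ δ → Ker K lY lX δ →
    ∀ (L : List (Cmp Y X)) (B : Finset X),
      -gg Y X δ L.length ≤ ∑ y, ∑ x ∈ row L B y, K y x ∧
      ∀ i, (∀ y, ∀ x ∈ row L B y, y ∈ lY i ∧ x ∈ lX i) →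
        ∑ y, ∑ x ∈ row L B y, K y x ≤ gg Y X δ L.length

/-- the triangle of a node -/
def nd {Y X V : Type} (w : V → X → ℝ) (u : V → Y → ℝ) (v : V) : Cmp Y X := ⟨true, w v, u v⟩

/-- the complement of the triangle of a node -/
def ng {Y X V : Type} (w : V → X → ℝ) (u : V → Y → ℝ) (v : V) : Cmp Y X := ⟨false, w v, u v⟩

/-- the triangle of the node `v` is contained in a leaf -/
def Leaf {Y X ι V : Type} (lY : ι → Set Y) (lX : ι → Finset X) (w : V → X → ℝ) (u : V → Y → ℝ)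
    (v : V) : Prop := ∃ i, ∀ y x, w v x < u v y → y ∈ lY i ∧ x ∈ lX i

/-- a triangle dag -/
def Dag {Y X ι V : Type} (lY : ι → Set Y) (lX : ι → Finset X) (w : V → X → ℝ) (u : V → Y → ℝ)
    (dp : V → ℕ) : Prop :=
  ∀ v, Leaf lY lX w u v ∨ ∃ v1 v2, dp v1 < dp v ∧ dp v2 < dp v ∧
    ∀ y x, w v x < u v y → w v1 x < u v1 y ∨ w v2 x < u v2 y

/-- PIE: the pieces after `p` levels -/
def S_PIE : Prop :=
  ∀ (Y X ι V : Type) [Fintype Y] [Fintype X] (lY : ι → Set Y) (lX : ι → Finset X)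
    (w : V → X → ℝ) (u : V → Y → ℝ) (dp : V → ℕ), Dag lY lX w u dp →
    ∀ (B : Finset X) (D p : ℕ) (v : V) (L : List (Cmp Y X)), dp v ≤ D + p →
      (∀ y, ∀ x ∈ row L B y, w v x < u v y) →
      ∃ P : List (List (Cmp Y X) × V), P.length ≤ 2 ^ p ∧
        (∀ π ∈ P, π.1.length ≤ L.length + p ∧
          (∀ y, ∀ x ∈ row π.1 B y, w π.2 x < u π.2 y) ∧
          (dp π.2 ≤ D ∨ Leaf lY lX w u π.2)) ∧
        ∀ f : Y → X → ℝ, ∑ y, ∑ x ∈ row L B y, f y x =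
          (P.map (fun π => ∑ y, ∑ x ∈ row π.1 B y, f y x)).sum

open Classical in
/-- PHS: `S_ERR → S_PIE → S_PHS`, one phase -/
def S_PHS : Prop :=
  ∀ (Y X ι V : Type) [Fintype Y] [Fintype X] [Fintype V] (K : Y → X → ℝ) (lY : ι → Set Y)
    (lX : ι → Finset X) (δ : ℝ), 0 ≤ δ → Ker K lY lX δ →
    ∀ (w : V → X → ℝ) (u : V → Y → ℝ) (dp : V → ℕ), Dag lY lX w u dp →
    ∀ (B : Finset X) (D p : ℕ) (v : V) (L : List (Cmp Y X)), dp v ≤ D + p →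
      (∀ y, ∀ x ∈ row L B y, w v x < u v y) →
      ∑ y, ∑ x ∈ row L B y, K y x ≤
        ∑ v' ∈ univ.filter (fun v' => dp v' ≤ D), ∑ y, ∑ x ∈ row (nd w u v' :: L) B y, K y x +
        ((Fintype.card V : ℝ) + 1) * 2 ^ p * gg Y X δ (L.length + p + 1)

/-- PH0: `S_ERR → S_PIE → S_PH0`, the last phase -/
def S_PH0 : Prop :=
  ∀ (Y X ι V : Type) [Fintype Y] [Fintype X] (K : Y → X → ℝ) (lY : ι → Set Y)
    (lX : ι → Finset X) (δ : ℝ), 0 ≤ δ → Ker K lY lX δ →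
    ∀ (w : V → X → ℝ) (u : V → Y → ℝ) (dp : V → ℕ), Dag lY lX w u dp →
    ∀ (B : Finset X) (p : ℕ) (v : V) (L : List (Cmp Y X)), dp v ≤ p →
      (∀ y, ∀ x ∈ row L B y, w v x < u v y) →
      ∑ y, ∑ x ∈ row L B y, K y x ≤ 2 ^ p * gg Y X δ (L.length + p)

/-- ABSC: `S_PHS → S_PH0 → S_ABSC`, `t + 1` phases of depth `p` -/
def S_ABSC : Prop :=
  ∀ (Y X ι V : Type) [Fintype Y] [Fintype X] [Fintype V] (K : Y → X → ℝ) (lY : ι → Set Y)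
    (lX : ι → Finset X) (δ : ℝ), 0 ≤ δ → Ker K lY lX δ →
    (∀ x, ∑ y, K y x = Fintype.card Y) → 0 < Fintype.card Y →
    ∀ (w : V → X → ℝ) (u : V → Y → ℝ) (dp : V → ℕ), Dag lY lX w u dp →
    ∀ (B : Finset X) (v : V), (∀ y, ∀ x ∈ B, w v x < u v y) →
    ∀ (t p : ℕ), dp v ≤ (t + 1) * p →
      (B.card : ℝ) ≤ 2 * (16 * Fintype.card V) ^ t * 16 ^ p * δ * Fintype.card X

/-! ## trees -/

/-- a tree of nodes, some of the leaves are dead -/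
inductive MT (V : Type) where
  | dead (v : V) : MT V
  | live (v : V) : MT V
  | node (v : V) (l r : MT V) : MT V

/-- the root -/
def MT.top {V : Type} : MT V → V
  | .dead v => v
  | .live v => v
  | .node v _ _ => v

/-- the number of live leaves -/
def MT.cnt {V : Type} : MT V → ℕ
  | .dead _ => 0
  | .live _ => 1
  | .node _ l r => l.cnt + r.cnt

/-- The tree is correct on the set `Z`. -/
def MT.Cov {Y X ι V : Type} (lY : ι → Set Y) (lX : ι → Finset X) (w : V → X → ℝ)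
    (u : V → Y → ℝ) (Z : Y → X → Prop) : MT V → Prop
  | .dead v => ∀ y x, Z y x → ¬ w v x < u v y
  | .live v => ∃ i, ∀ y x, Z y x → w v x < u v y → y ∈ lY i ∧ x ∈ lX i
  | .node v l r => l.Cov lY lX w u Z ∧ r.Cov lY lX w u Z ∧
      ∀ y x, Z y x → w v x < u v y → w l.top x < u l.top y ∨ w r.top x < u r.top y

/-- SEL: a balanced subtree -/
def S_SEL : Prop :=
  ∀ (V : Type) (t : MT V), 2 ≤ t.cnt → ∃ s t' : MT V,
    t.cnt ≤ 3 * s.cnt ∧ 3 * s.cnt ≤ 2 * t.cnt ∧ t'.cnt + s.cnt = t.cnt ∧ t'.top = t.top ∧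
    ∀ (Y X ι : Type) (lY : ι → Set Y) (lX : ι → Finset X) (w : V → X → ℝ) (u : V → Y → ℝ)
      (Z : Y → X → Prop), t.Cov lY lX w u Z →
      s.Cov lY lX w u Z ∧ t'.Cov lY lX w u (fun y x => Z y x ∧ ¬ w s.top x < u s.top y)

/-- TRB: `S_ERR → S_SEL → S_TRB` -/
def S_TRB : Prop :=
  ∀ (Y X ι V : Type) [Fintype Y] [Fintype X] (K : Y → X → ℝ) (lY : ι → Set Y)
    (lX : ι → Finset X) (δ : ℝ), 0 ≤ δ → Ker K lY lX δ →
    ∀ (w : V → X → ℝ) (u : V → Y → ℝ) (B : Finset X) (t : MT V) (L : List (Cmp Y X)),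
      t.Cov lY lX w u (fun y x => x ∈ row L B y) →
      (∀ y, ∀ x ∈ row L B y, w t.top x < u t.top y) →
      ∑ y, ∑ x ∈ row L B y, K y x ≤ (t.cnt : ℝ) ^ 7 * gg Y X δ L.length

/-! ## the kernel of a linear system with the index gadget -/

/-- MOMX: `H91.AV.S_MOC → S_MOMX`, the index gadget -/
def S_MOMX : Prop :=
  ∀ (U : Type) [Fintype U] [DecidableEq U],
    MomInd (fun (s : U → ZMod 2) (v : U) => s v) 2 48

/-- MASX: the total mass -/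
def S_MASX : Prop :=
  ∀ (U : Type) [Fintype U] [DecidableEq U] (B : ℕ) (D : (Fin B → ZMod 2) → ℝ)
    (x : Fin B → U),
    (∑ y : Fin B → U → ZMod 2, D (fun i => y i (x i))) * 2 ^ B =
      (Fintype.card (Fin B → U → ZMod 2) : ℝ) * ∑ z, D z

/-- KER: `S_MOMX → S_MASX → AV.S_BIP → AV.S_BIZ → KX.S_PDA → KX.S_PDP → H1.LP.S_LOC → S_KER` -/
def S_KER : Prop :=
  ∀ (U : Type) [Fintype U] [DecidableEq U] (B R t : ℕ) (Ys : Sys 2 B R t (t / 3)) (δ : ℝ),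
    1 ≤ R → 9 ≤ t → 40 ≤ Fintype.card U → (∀ i, (supp (Ys.A i)).card ≤ 3) → 0 ≤ δ →
    (R : ℝ) ^ 3 * 2592 ^ B * (1536 / (Fintype.card U : ℝ) ^ 2) ^ (t / 3 + 1) ≤ δ ^ 4 →
    ∃ K : (Fin B → U → ZMod 2) → (Fin B → U) → ℝ,
      (∀ x, ∑ y, K y x = Fintype.card (Fin B → U → ZMod 2)) ∧
      ∀ (ι : Type) (lY : ι → Set (Fin B → U → ZMod 2)) (lX : ι → Finset (Fin B → U))
        (e : ι → (Fin B → U) → Fin R),
        (∀ i, ∀ y ∈ lY i, ∀ x ∈ lX i,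
          ip (Ys.A (e i x)) (fun j => y j (x j)) ≠ Ys.be (e i x)) → Ker K lY lX δ

/-! ## the formula for cutting planes -/

/-- the assignment of a pair: every variable is a function of `x` or of `y` -/
def asg {n : ℕ} {Y X : Type} (side : Fin n → Bool) (f : Fin n → Y → Bool)
    (g : Fin n → X → Bool) (y : Y) (x : X) (v : Fin n) : Bool :=
  if side v = true then g v x else f v y

/-- WID: the formula with clauses of width `3 l + 3`; the first `3 l` literals of a clause are on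
the `x`-side, the last three on the `y`-side -/
def S_WID : Prop :=
  ∀ (B R l : ℕ) (T : Fin R → Finset (Fin B)) (A : Fin R → Fin B → ZMod 2)
    (be : Fin R → ZMod 2), (∀ i, (T i).card = 3) →
    (∀ i j, A i j = if j ∈ T i then 1 else 0) → (∀ z, ∃ i, ip (A i) z ≠ be i) →
    ∃ (M : ℕ) (lit : Fin M → Fin (3 * l + 3) → Fin (B * l + B * 2 ^ l) × Bool)
      (side : Fin (B * l + B * 2 ^ l) → Bool)
      (f : Fin (B * l + B * 2 ^ l) → (Fin B → (Fin l → Bool) → ZMod 2) → Bool)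
      (g : Fin (B * l + B * 2 ^ l) → (Fin B → (Fin l → Bool)) → Bool) (e : Fin M → Fin R),
      M ≤ R * 8 ^ (l + 1) ∧ (∀ i, Function.Injective (fun k => (lit i k).1)) ∧
      (∀ i k, side (lit i k).1 = decide (k.val < 3 * l)) ∧
      (∀ v : Fin (B * l + B * 2 ^ l) → Bool, ∃ i, ∀ k, v (lit i k).1 ≠ (lit i k).2) ∧
      ∀ i y x, (∀ k, asg side f g y x (lit i k).1 ≠ (lit i k).2) →
        ip (A (e i)) (fun j => y j (x j)) ≠ be (e i)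

/-- TCN: from wide clauses to width 3 -/
def S_TCN : Prop :=
  ∀ (Y X : Type) (n0 M w0 w n : ℕ) (lit : Fin M → Fin w → Fin n0 × Bool)
    (side : Fin n0 → Bool) (f : Fin n0 → Y → Bool) (g : Fin n0 → X → Bool),
    4 ≤ w → n0 + M * (w - 3) ≤ n → (∀ i, Function.Injective (fun k => (lit i k).1)) →
    (∀ i k, side (lit i k).1 = decide (k.val < w0)) →
    (∀ v : Fin n0 → Bool, ∃ i, ∀ k, v (lit i k).1 ≠ (lit i k).2) →
    ∃ (m : ℕ) (phi : Fin m → Clause n) (side' : Fin n → Bool) (f' : Fin n → Y → Bool)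
      (g' : Fin n → X → Bool), m ≤ M * (w - 2) ∧
      (∀ i, (phi i).card = 3 ∧ ((phi i).image Prod.fst).card = 3) ∧
      (∀ v, ∃ i, ¬ (phi i).Sat v) ∧
      ∀ i, ∃ i0, ∀ y x, ¬ (phi i).Sat (asg side' f' g' y x) →
        ∀ k, asg side f g y x (lit i0 k).1 ≠ (lit i0 k).2

/-! ## from refutations and circuits to dags -/

/-- a lower bound `2 ^ a` for dags with `s` nodes, depth `d` -/
def Bnd (a : ℝ) (s d : ℕ) : Prop :=
  2 ≤ s ∧ ∀ t p : ℕ, d ≤ (t + 1) * p → (2 : ℝ) ^ a ≤ 2 * (16 * s) ^ t * 16 ^ p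

/-- CPD: `S_ABSC → S_TRB → S_CPD`, cutting planes refutations of a formula whose variables are
functions of `x` or of `y` -/
def S_CPD : Prop :=
  ∀ (Y X : Type) [Fintype Y] [Fintype X] (n m R : ℕ) (phi : Fin m → Clause n)
    (side : Fin n → Bool) (f : Fin n → Y → Bool) (g : Fin n → X → Bool) (V : Fin R → Y → X → Prop)
    (K : Y → X → ℝ) (δ : ℝ), 0 < δ → 0 < Fintype.card Y → 0 < Fintype.card X →
    (∀ x, ∑ y, K y x = Fintype.card Y) →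
    (∀ (ι : Type) (lY : ι → Set Y) (lX : ι → Finset X) (e : ι → X → Fin R),
        (∀ i, ∀ y ∈ lY i, ∀ x ∈ lX i, V (e i x) y x) → Ker K lY lX δ) →
    (∀ i, (phi i).card = 3 ∧ ((phi i).image Prod.fst).card = 3) →
    (∀ i, ∃ e, ∀ y x, ¬ (phi i).Sat (asg side f g y x) → V e y x) →
    (∀ s d : ℕ, Refutable phi s d → Bnd (Real.logb 2 (1 / δ)) s d) ∧
    ∀ p : Tree n, p.Valid phi → (∀ x, ¬ Holds p.top x) → 1 ≤ (p.size : ℝ) ^ 7 * δ

/-- CPC: `S_CPD → S_KER → S_WID → S_TCN → S_CPC`, the formulas for cutting planes -/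
def S_CPC : Prop :=
  ∀ (B R t l n : ℕ) (T : Fin R → Finset (Fin B)) (Ys : Sys 2 B R t (t / 3)),
    1 ≤ B → 1 ≤ R → 9 ≤ t → 6 ≤ l →
    B * l + B * 2 ^ l + R * 8 ^ (l + 1) * (3 * l) ≤ n → (∀ i, (T i).card = 3) →
    (∀ i j, Ys.A i j = if j ∈ T i then 1 else 0) →
    (∀ z : Fin B → ZMod 2, ∃ i, ip (Ys.A i) z ≠ Ys.be i) →
    (R : ℝ) ^ 3 * 2592 ^ B * (1536 / ((2 : ℝ) ^ l) ^ 2) ^ (t / 3 + 1) ≤ (1 / 2 ^ B) ^ 4 →
    ∃ (m : ℕ) (phi : Fin m → Clause n), m ≤ R * 8 ^ (l + 1) * (3 * l + 1) ∧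
      (∀ i, (phi i).card = 3 ∧ ((phi i).image Prod.fst).card = 3) ∧
      (∀ x, ∃ i, ¬ (phi i).Sat x) ∧
      (∀ s d : ℕ, Refutable phi s d → Bnd B s d) ∧
      ∀ p : Tree n, p.Valid phi → (∀ x, ¬ Holds p.top x) → (2 : ℝ) ^ B ≤ (p.size : ℝ) ^ 7

/-- REQ: equations of `rval` and `rdep` -/
def S_REQ : Prop :=
  ∀ (n : ℕ) (g : (i : ℕ) → RGate n i) (i : ℕ),
    (∀ r, g i = .cst r → (∀ F, rval g F i = r) ∧ rdep g i = 0) ∧
    (∀ C, g i = .inp C → (∀ F : Set (Clause n), (C ∈ F → rval g F i = 1) ∧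
      (C ∉ F → rval g F i = 0)) ∧ rdep g i = 0) ∧
    (∀ f hf j l, g i = .op f hf j l → (∀ F, rval g F i = f (rval g F j.1) (rval g F l.1)) ∧
      rdep g i = max (rdep g j.1) (rdep g l.1) + 1) ∧
    rdep g i ≤ i

/-- RMD: `S_ABSC → S_REQ → S_RMD`; `Y` = points, `X` = formulas, `FX x` = the formula of `x`,
`FY y` = a satisfiable formula for the point `y`, `V e y x` = the point `y` violates the equation
`e` of the formula `x` -/
def S_RMD : Prop :=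
  ∀ (Y X : Type) [Fintype Y] [Fintype X] (n R : ℕ) (FY : Y → Set (Clause n))
    (FX : X → Set (Clause n)) (V : Fin R → Y → X → Prop) (K : Y → X → ℝ) (δ : ℝ), 1 ≤ R →
    0 < δ → 0 < Fintype.card Y →
    (∀ x, ∑ y, K y x = Fintype.card Y) →
    (∀ (ι : Type) (lY : ι → Set Y) (lX : ι → Finset X) (e : ι → X → Fin R),
        (∀ i, ∀ y ∈ lY i, ∀ x ∈ lX i, V (e i x) y x) → Ker K lY lX δ) →
    (∀ x, ∀ C ∈ FX x, ∃ e, ∀ y, C ∉ FY y → V e y x) →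
    ∀ (Ci : RCircuit n) (A : Finset X), (∀ y, rval Ci.gate (FY y) Ci.out ≤ 0) →
      (∀ x ∈ A, 0 < rval Ci.gate (FX x) Ci.out) →
      ∀ t p : ℕ, Ci.depth ≤ (t + 1) * p →
        (A.card : ℝ) ≤ 2 * (16 * Ci.size) ^ t * 16 ^ p * δ * Fintype.card X

/-- RMC: `S_RMD → S_KER → KX.S_FRM3 → S_RMC`, the core inequality for real monotone circuits -/
def S_RMC : Prop :=
  ∀ (B R t q n : ℕ) (ε : ℝ) (T : Fin R → Finset (Fin B)) (Ys : Sys 2 B R t (t / 3)),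
    1 ≤ R → 9 ≤ t → 40 ≤ q → B * q ≤ n → (∀ i, (T i).card = 3) →
    (∀ i j, Ys.A i j = if j ∈ T i then 1 else 0) →
    (∀ z : Fin B → ZMod 2, (1 - ε) * ((R : ℝ) / 2) ≤
      ((univ.filter (fun i => ip (Ys.A i) z ≠ Ys.be i)).card : ℝ)) →
    (R : ℝ) ^ 3 * 2592 ^ B * (1536 / (q : ℝ) ^ 2) ^ (t / 3 + 1) ≤ (1 / 2 ^ B) ^ 4 →
    ∃ (Y : ℕ) (m : Fin Y → ℕ) (phi : (a : Fin Y) → Fin (m a) → Clause n), 0 < Y ∧
      (∀ a, 1 ≤ m a ∧ m a ≤ 4 * R ∧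
        (∀ i, (phi a i).card = 3 ∧ ((phi a i).image Prod.fst).card = 3) ∧
        ∀ x, (1 - ε) * ((m a : ℝ) / 2 ^ 3) ≤ (viol (phi a) x : ℝ)) ∧
      ∀ (C : RCircuit n) (A : Finset (Fin Y)), RSound C 3 (R * (2 * q) ^ 3) →
        (∀ a ∈ A, RAcc C (phi a)) → ∀ t p : ℕ, C.depth ≤ (t + 1) * p →
          (A.card : ℝ) * 2 ^ B ≤ 2 * (16 * C.size) ^ t * 16 ^ p * Y

/-! ## numbers -/

/-- PARC: choice of the parameters -/
def S_PARC : Prop :=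
  ∀ R0 E : ℕ, 1 ≤ R0 → 1 ≤ E → ∃ l : ℕ, 6 ≤ l ∧ ∃ B1 : ℕ, ∀ B : ℕ, B1 ≤ B →
    1 ≤ B ∧ 9 ≤ B / E ∧
    ((R0 * B : ℕ) : ℝ) ^ 3 * 2592 ^ B * (1536 / ((2 : ℝ) ^ l) ^ 2) ^ ((B / E) / 3 + 1) ≤
      (1 / 2 ^ B) ^ 4

/-- NUM: from the inequality for all `t`, `p` to the tradeoff -/
def S_NUM : Prop :=
  ∀ (a : ℝ) (s d : ℕ), 100 ≤ a → 1 ≤ s →
    (∀ t p : ℕ, d ≤ (t + 1) * p → (2 : ℝ) ^ a ≤ 2 * (16 * s) ^ t * 16 ^ p) →
    a / 8 ≤ d ∧ (2 ≤ s → a ^ 2 / 1000 ≤ d * Real.logb 2 s)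

/-- FINC: `KX.S_X3 → S_CPC → S_PARC → S_NUM → StatementCP` -/
def S_FINC : Prop := StatementCP

/-- FINR: `KX.S_X3 → S_RMC → S_PARC → S_NUM → S_REQ → StatementRM` -/
def S_FINR : Prop := StatementRM

end Pool.Agent.H37.CP
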